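import Mathlib
import Pool.Agent.Koe.Main

/-!
# Matrix rings over periodic rings need not be periodic

The answer to Q1 of MP_a4b099_al is NO: there is a (unital, associative) periodic ring `R` such that
the ring of `n × n` matrices over `R` is not periodic for any `n ≥ 2`.
The construction is in `Pool.Agent.Koe.*`.
-/

set_option autoImplicit false

namespace Pool.Agent.Results.MP_a4b099_al.MatrixRingNotPeriodic

/-- the powers of the matrix `A` in the upper left corner -/
theorem corner {R : Type} [Ring R] (A : Matrix (Fin 2) (Fin 2) R)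
    (hA : ∀ m k : ℕ, m ≠ k → A ^ m ≠ A ^ k) (n : ℕ) (hn : 2 ≤ n) :
    ∃ B : Matrix (Fin n) (Fin n) R, ∀ m k : ℕ, 0 < m → 0 < k → m ≠ k → B ^ m ≠ B ^ k := by
  obtain ⟨r, rfl⟩ := Nat.exists_eq_add_of_le hn
  let e : Fin (2 + r) ≃ Fin 2 ⊕ Fin r := finSumFinEquiv.symm
  let C : Matrix (Fin 2 ⊕ Fin r) (Fin 2 ⊕ Fin r) R := Matrix.fromBlocks A 0 0 0
  have hC : ∀ m : ℕ, C ^ (m + 1) = Matrix.fromBlocks (A ^ (m + 1)) 0 0 0 := by
    intro m
    induction m with
    | zero => simp [C]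
    | succ m ih =>
      rw [pow_succ, ih, pow_succ A (m + 1)]
      simp [C, Matrix.fromBlocks_multiply]
  have hB : ∀ m : ℕ, (C.submatrix e e) ^ (m + 1) = (C ^ (m + 1)).submatrix e e := by
    intro m
    induction m with
    | zero => simp
    | succ m ih => rw [pow_succ, ih, pow_succ C (m + 1), Matrix.submatrix_mul_equiv]
  refine ⟨C.submatrix e e, fun m k hm hk hmk h => ?_⟩
  obtain ⟨m, rfl⟩ := Nat.exists_eq_succ_of_ne_zero hm.ne'
  obtain ⟨k, rfl⟩ := Nat.exists_eq_succ_of_ne_zero hk.ne'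
  rw [Nat.succ_eq_add_one, Nat.succ_eq_add_one, hB, hB, hC, hC] at h
  have h2 := congrArg (fun M => M.submatrix e.symm e.symm) h
  simp only [Matrix.submatrix_submatrix, Equiv.self_comp_symm, Matrix.submatrix_id_id] at h2
  exact hA _ _ hmk (Matrix.fromBlocks_inj.1 h2).1

/-- There is a ring `R` with identity such that for every `x : R` there are positive integers
`m ≠ k` with `x ^ m = x ^ k`, while for every `n ≥ 2` there is a matrix `A : M_n(R)` with
`A ^ m ≠ A ^ k` for all positive integers `m ≠ k`. -/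
theorem result :
    ∃ (R : Type) (_ : Ring R),
      (∀ x : R, ∃ m k : ℕ, 0 < m ∧ 0 < k ∧ m ≠ k ∧ x ^ m = x ^ k) ∧
      ∀ n : ℕ, 2 ≤ n → ∃ A : Matrix (Fin n) (Fin n) R,
        ∀ m k : ℕ, 0 < m → 0 < k → m ≠ k → A ^ m ≠ A ^ k := by
  obtain ⟨R, hR, N, h2, hnil, hN, A, -, hA, -⟩ := Pool.Agent.Koe.main_ring
  refine ⟨R, hR, fun x => ?_, corner A hA⟩
  rcases hN x with hx | hx
  · obtain ⟨n, hn⟩ := hnil x hx
    refine ⟨n + 1, n + 2, Nat.succ_pos _, Nat.succ_pos _, by omega, ?_⟩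
    rw [pow_succ, hn, zero_mul, pow_add, hn, zero_mul]
  · obtain ⟨n, hn⟩ := hnil _ hx
    -- `x = 1 + y`, `y = x - 1` nilpotent, so `x ^ (2 ^ n) = 1`
    have h2' : ∀ z : R, z + z = 0 := by
      intro z
      have := congrArg (· * z) h2
      simpa [two_mul] using this
    have key : ∀ j : ℕ, x ^ (2 ^ j) = 1 + (x - 1) ^ (2 ^ j) := by
      intro j
      induction j with
      | zero => simp
      | succ j ih =>
        rw [pow_succ, pow_mul, ih, pow_mul]
        have : (1 + (x - 1) ^ 2 ^ j) ^ 2 = 1 + ((x - 1) ^ 2 ^ j + (x - 1) ^ 2 ^ j)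
            + ((x - 1) ^ 2 ^ j) ^ 2 := by noncomm_ring
        rw [this, h2', add_zero]
    have hle : n ≤ 2 ^ n := Nat.lt_two_pow_self.le
    have h1 : x ^ (2 ^ n) = 1 := by
      rw [key n, ← Nat.sub_add_cancel hle, pow_add, hn, mul_zero, add_zero]
    refine ⟨2 ^ n, 2 * 2 ^ n, by positivity, by positivity, ?_, ?_⟩
    · have : 0 < 2 ^ n := by positivity
      omega
    · rw [mul_comm, pow_mul, h1, one_pow]

end Pool.Agent.Results.MP_a4b099_al.MatrixRingNotPeriodic
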